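import Pool.Agent.Y393.SG.Conv

/-!
# The exact exponent for graphs of girth `7` to `24` on surfaces

For girth at least `l ≥ 7` the exponent `1 / ⌊(l + 5) / 6⌋` of the genus suffices for
`(0,k)`-colourings (with the constant `29`), and for `l ≤ 24` it is best possible: it is `1/2` for
`l = 7, …, 12`, `1/3` for `l = 13, …, 18` and `1/4` for `l = 19, …, 24`. For every `l ≥ 7` the least
admissible exponent lies between `24 / (5 l + 61)` and `6 / l`.

Authors: helper393 (plan, critical sets, surfaces, assembly), helper395 (quotients, colourings,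
embeddings), helper587 (girth, graphs of girth eight).
-/

set_option autoImplicit false

namespace Pool.Agent.Results.MP_9b9b31_co.ExactExponents

open Pool.Agent.H968R3 Pool.Agent.Y393.SG

/-- `Adm l e`: the exponent `e` is admissible for girth `l`, that is, for some `C > 0` and all
`g ≥ 1` every finite graph of girth at least `l` which embeds on a surface of Euler genus `g` is
`(0, ⌊C g ^ e⌋)`-colourable. `SurfForm l e`: for some `κ > 0` and all large `g` some finite graph of
girth at least `l` embeds on a surface of Euler genus `g` and is not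
`(0, ⌊κ g ^ e⌋)`-colourable. -/
theorem result :
    ∃ c : ℕ → ℝ, (∀ l, 0 < c l) ∧ Filter.Tendsto c Filter.atTop (nhds 0) ∧
      (∀ l, 7 ≤ l → c l = 1 / (((l + 5) / 6 : ℕ) : ℝ) ∧ c l ≤ 6 / (l : ℝ)) ∧
      -- the upper bound, which answers Q1
      (∀ l : ℕ, 7 ≤ l → ∀ g : ℕ, 1 ≤ g → ∀ (V : Type) [Finite V] (G : SimpleGraph V),
        (l : ℕ∞) ≤ G.egirth → EmbedsEulerGenus G g → ZeroCol G ⌊29 * (g : ℝ) ^ c l⌋₊) ∧
      -- for `7 ≤ l ≤ 24` the exponent `c l` is the least admissible one, and it is sharp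
      (∀ l, 7 ≤ l → l ≤ 24 → (∀ e : ℝ, Adm l e ↔ c l ≤ e) ∧ SurfForm l (c l)) ∧
      -- for all `l ≥ 7`
      ∀ l, 7 ≤ l → ∀ e : ℝ, Adm l e → 24 / (5 * (l : ℝ) + 61) ≤ e := by
  refine ⟨fun l => if 7 ≤ l then 1 / (((l + 5) / 6 : ℕ) : ℝ) else 1, ?_, ?_, ?_, ?_, ?_, ?_⟩
  · intro l
    beta_reduce
    split_ifs with h
    · have h1 : 0 < (l + 5) / 6 := by omega
      have h2 : (0 : ℝ) < (((l + 5) / 6 : ℕ) : ℝ) := by exact_mod_cast h1
      positivity
    · norm_num
  · have h1 : Filter.Tendsto (fun l : ℕ => (l + 5) / 6) Filter.atTop Filter.atTop := by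
      rw [Filter.tendsto_atTop_atTop]
      intro b
      exact ⟨6 * b, fun a ha => by omega⟩
    have h2 : Filter.Tendsto (fun l : ℕ => 1 / (((l + 5) / 6 : ℕ) : ℝ)) Filter.atTop (nhds 0) :=
      tendsto_one_div_atTop_nhds_zero_nat.comp h1
    refine h2.congr' ?_
    filter_upwards [Filter.eventually_ge_atTop 7] with l hl
    rw [if_pos hl]
  · intro l hl
    simp only [if_pos hl, true_and]
    have h1 : l ≤ 6 * ((l + 5) / 6) := by omega
    have h2 : (l : ℝ) ≤ 6 * (((l + 5) / 6 : ℕ) : ℝ) := by exact_mod_cast h1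
    have h3 : (7 : ℝ) ≤ l := by exact_mod_cast hl
    have h4 : (0 : ℝ) < (((l + 5) / 6 : ℕ) : ℝ) := by linarith
    rw [div_le_div_iff₀ h4 (by linarith)]
    linarith
  · intro l hl g hg V _ G h1 h2
    simp only [if_pos hl]
    have h := upper (m := (l - 1) / 6) (by omega) (by omega : 6 * ((l - 1) / 6) + 1 ≤ l) hg V G
      h1 h2
    have e : (((l - 1) / 6 : ℕ) : ℝ) + 1 = (((l + 5) / 6 : ℕ) : ℝ) := by
      have : (l + 5) / 6 = (l - 1) / 6 + 1 := by omega
      rw [this]; push_cast; ring
    rw [e] at h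
    exact h
  · intro l hl hl2
    simp only [if_pos hl]
    refine ⟨adm_iff hl hl2, ?_⟩
    have h := sharp (m := (l - 1) / 6) (l := l) (by omega) (by omega) (by omega)
    have e : (((l - 1) / 6 : ℕ) : ℝ) + 1 = (((l + 5) / 6 : ℕ) : ℝ) := by
      have : (l + 5) / 6 = (l - 1) / 6 + 1 := by omega
      rw [this]; push_cast; ring
    rw [e] at h
    exact h
  · intro l hl e he
    exact lower_all hl he

end Pool.Agent.Results.MP_9b9b31_co.ExactExponents
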